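import Pool.Agent.MP_701998_lc.Sg.D

open MeasureTheory Filter

namespace Pool.Agent.Results.MP_701998_lc.AnalyticLevel

universe u

/-- A continuous linear functional on the bounded real sequences whose operator norm is one. -/
def NormOne (L : lp (fun _ : ℕ => ℝ) ⊤ → ℝ) : Prop :=
  IsBoundedLinearMap ℝ L ∧ IsLeast {c : ℝ | ∀ x, |L x| ≤ c * ‖x‖} 1

/-- Banach limits, as in the problem file. -/
def IsBanachLimit (L : lp (fun _ : ℕ => ℝ) ⊤ → ℝ) : Prop :=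
  NormOne L ∧ (∀ x : lp (fun _ : ℕ => ℝ) ⊤,
    liminf (fun n => x n) atTop ≤ L x ∧ L x ≤ limsup (fun n => x n) atTop) ∧
  ∀ x y : lp (fun _ : ℕ => ℝ) ⊤, (∀ n, y n = x (n + 1)) → L y = L x

/-- The reals `t` for which some sequence `y 0, y 1, …` of bounded sequences has
`(t, (y n), (L (y n)))` in `B`. -/
def Shadow (L : lp (fun _ : ℕ => ℝ) ⊤ → ℝ) (B : Set (ℝ × (ℕ → ℕ → ℝ) × (ℕ → ℝ))) : Set ℝ :=
  {t | ∃ y : ℕ → lp (fun _ : ℕ => ℝ) ⊤, (t, (fun n k => y n k), fun n => L (y n)) ∈ B}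

/-- For any `ℵ₁` pairs of a measure on the line and an analytic set there is one Banach limit
all of whose shadows of these sets are measurable for the corresponding measures. -/
theorem result (ι : Type u) (hι : Cardinal.mk ι ≤ Cardinal.aleph 1) (μ : ι → Measure ℝ)
    [∀ i, SFinite (μ i)] (B : ι → Set (ℝ × (ℕ → ℕ → ℝ) × (ℕ → ℝ)))
    (hB : ∀ i, AnalyticSet (B i)) :
    ∃ L, IsBanachLimit L ∧ ∀ i, NullMeasurableSet (Shadow L (B i)) (μ i) := by
  obtain ⟨L, ⟨h1, h2, h3⟩, h4⟩ := Pool.Agent.MP701998.Sg.main hι μ B hB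
  refine ⟨L, ⟨⟨L.isBoundedLinearMap, fun x => h2 ▸ L.le_opNorm x, fun c hc => ?_⟩, h1, h3⟩, h4⟩
  have h5 := (abs_nonneg _).trans (hc 1)
  rw [norm_one, mul_one] at h5
  exact h2 ▸ L.opNorm_le_bound h5 hc

end Pool.Agent.Results.MP_701998_lc.AnalyticLevel
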