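import Pool.Agent.Mg.F701998.G7350c9

open MeasureTheory

namespace Pool.Agent.Results.MP_701998_lc.Medial

universe u

/-- For every sequence of Borel functions on the line with values `0` and `1`, the sets
`{t | L (f t) < c}` are Lebesgue measurable. -/
def LebesgueMeasurable (L : lp (fun _ : ℕ => ℝ) ⊤ → ℝ) : Prop :=
  ∀ f : ℝ → lp (fun _ : ℕ => ℝ) ⊤, (∀ n, Measurable fun t => f t n) →
    (∀ t n, f t n = 0 ∨ f t n = 1) → ∀ c : ℝ, NullMeasurableSet {t | L (f t) < c} volume

/-- `L` commutes with integration over every probability space. -/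
def MeasureLinear (L : lp (fun _ : ℕ => ℝ) ⊤ → ℝ) : Prop :=
  ∀ (Ω : Type u) [MeasurableSpace Ω] (μ : Measure Ω) [IsProbabilityMeasure μ]
    (g : Ω → lp (fun _ : ℕ => ℝ) ⊤), (∀ n, Measurable fun ω => g ω n) → (∀ ω, ‖g ω‖ ≤ 1) →
    ∀ b : lp (fun _ : ℕ => ℝ) ⊤, (∀ n, b n = ∫ ω, g ω n ∂μ) →
      Integrable (fun ω => L (g ω)) μ ∧ ∫ ω, L (g ω) ∂μ = L b

/-- A bounded linear functional on the bounded real sequences, for example a Banach limit,
which produces no non-measurable set through Borel maps is measure linear. -/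
theorem result (L : lp (fun _ : ℕ => ℝ) ⊤ → ℝ) (hb : IsBoundedLinearMap ℝ L)
    (hL : LebesgueMeasurable L) : MeasureLinear.{u} L :=
  fun _ _ μ _ _ hg hg1 _ h =>
    Pool.Agent.MP701998.medial (L := hb.toContinuousLinearMap)
      (Pool.Agent.MP701998.null_of_binary (L := hb.toContinuousLinearMap) hL) μ ⟨hg, hg1⟩ h

end Pool.Agent.Results.MP_701998_lc.Medial
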